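import Mathlib
import Pool.Agent.H50.Restr

namespace Pool.Agent.Results.MP_5bb273_ag.NotMaxRank

open Pool.Agent.H50.Restr

theorem result :
    ∃ G : MvPolynomial (Fin 7 × Fin 2) ℂ, G ≠ 0 ∧ ∀ p : Fin 7 → Fin 2 → ℂ,
      MvPolynomial.eval (fun ij : Fin 7 × Fin 2 => p ij.1 ij.2) G ≠ 0 →
        Function.Injective p ∧ NoFixed p 6 ![3, 2, 2, 2, 2, 2, 2] ∧
        ¬ Function.Injective (rho p 6 ![3, 2, 2, 2, 2, 2, 2] 0) ∧
        ¬ Function.Surjective (rho p 6 ![3, 2, 2, 2, 2, 2, 2] 0) := by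
  obtain ⟨G, hG, h⟩ := generic
  refine ⟨G, hG, fun p hp => ⟨(h p hp).1, noFixed (h p hp).2, fun hi => ?_, not_surj (h p hp).2⟩⟩
  exact ker_ne p (LinearMap.ker_eq_bot.2 hi)

end Pool.Agent.Results.MP_5bb273_ag.NotMaxRank
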